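import Mathlib

namespace Pool.Agent.Helper27.BoxDraw

open Finset

variable {ι : Type*}

/-- pairwise disjoint rectangles -/
def Rdisj (X1 X2 Y1 Y2 : ι → ℤ) (U : Finset ι) : Prop :=
  ∀ v ∈ U, ∀ w ∈ U, v ≠ w → ∀ x y, X1 v ≤ x → x ≤ X2 v → Y1 v ≤ y → y ≤ Y2 v →
    X1 w ≤ x → x ≤ X2 w → Y1 w ≤ y → y ≤ Y2 w → False

/-- `v` is reached from `u` by going right, then down, avoiding the rectangles that live long. -/
def Beta (X1 X2 Y1 Y2 T : ι → ℤ) (D : ℕ) (U : Finset ι) (u v : ι) : Prop :=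
  v ≠ u ∧ T u ≤ T v ∧ ∃ x y yc : ℤ, X2 u < x ∧ x ≤ X2 u + D ∧ Y1 u ≤ y ∧ X1 v ≤ x ∧ x ≤ X2 v ∧
    Y1 v ≤ yc ∧ yc ≤ Y2 v ∧ Y2 v < Y1 u ∧
    ∀ w ∈ U, T u ≤ T w → ∀ y', yc < y' → y' ≤ y →
      ¬ (X1 w ≤ x ∧ x ≤ X2 w ∧ Y1 w ≤ y' ∧ y' ≤ Y2 w)

/-- `v` is close to `u`, to the right, and meets the top row of `u`. -/
def Alpha (X1 X2 Y1 Y2 : ι → ℤ) (D : ℕ) (u v : ι) : Prop :=
  Y1 v ≤ Y2 u ∧ Y2 u ≤ Y2 v ∧ X2 u < X1 v ∧ X1 v ≤ X2 u + D

open Classical in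
theorem beta_card (X1 X2 Y1 Y2 T : ι → ℤ) (D : ℕ) (U : Finset ι) (h : Rdisj X1 X2 Y1 Y2 U)
    (u : ι) : (U.filter (Beta X1 X2 Y1 Y2 T D U u)).card ≤ D := by
  have hex : ∀ v ∈ U.filter (Beta X1 X2 Y1 Y2 T D U u), ∃ x : ℤ, ∃ y yc : ℤ,
      X2 u < x ∧ x ≤ X2 u + D ∧ Y1 u ≤ y ∧ X1 v ≤ x ∧ x ≤ X2 v ∧
      Y1 v ≤ yc ∧ yc ≤ Y2 v ∧ Y2 v < Y1 u ∧
      ∀ w ∈ U, T u ≤ T w → ∀ y', yc < y' → y' ≤ y →
        ¬ (X1 w ≤ x ∧ x ≤ X2 w ∧ Y1 w ≤ y' ∧ y' ≤ Y2 w) := by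
    intro v hv
    exact (mem_filter.1 hv).2.2.2
  choose! f hf using hex
  have hcard : (Finset.Ioc (X2 u) (X2 u + D)).card = D := by simp
  refine le_of_le_of_eq (Finset.card_le_card_of_injOn f ?_ ?_) hcard
  · intro v hv
    rw [Finset.mem_coe] at hv
    obtain ⟨y, yc, h1, h2, _⟩ := hf v hv
    simp only [Finset.coe_Ioc, Set.mem_Ioc]
    exact ⟨h1, h2⟩
  · intro v hv v' hv' hvv
    rw [Finset.mem_coe] at hv hv'
    by_contra hne
    obtain ⟨y, yc, h1, h2, h3, h4, h5, h6, h7, h8, h9⟩ := hf v hv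
    obtain ⟨y', yc', h1', h2', h3', h4', h5', h6', h7', h8', h9'⟩ := hf v' hv'
    have hvU := (mem_filter.1 hv).1
    have hvU' := (mem_filter.1 hv').1
    have hT := (mem_filter.1 hv).2.2.1
    have hT' := (mem_filter.1 hv').2.2.1
    rcases lt_trichotomy yc yc' with hlt | heq | hlt
    · exact h9 v' hvU' hT' yc' hlt (by omega) ⟨by rw [hvv]; exact h4', by rw [hvv]; exact h5', h6', h7'⟩
    · exact h v hvU v' hvU' hne (f v) yc h4 h5 h6 h7 (by rw [hvv]; exact h4')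
        (by rw [hvv]; exact h5') (by omega) (by omega)
    · exact h9' v hvU hT yc hlt (by omega) ⟨by rw [← hvv]; exact h4, by rw [← hvv]; exact h5, h6, h7⟩

open Classical in
theorem alpha_card (X1 X2 Y1 Y2 : ι → ℤ) (D : ℕ) (U : Finset ι) (h : Rdisj X1 X2 Y1 Y2 U)
    (hX : ∀ v, X1 v ≤ X2 v) (u : ι) : (U.filter (Alpha X1 X2 Y1 Y2 D u)).card ≤ D := by
  have hcard : (Finset.Ioc (X2 u) (X2 u + D)).card = D := by simp
  refine le_of_le_of_eq (Finset.card_le_card_of_injOn X1 ?_ ?_) hcard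
  · intro v hv
    obtain ⟨_, h1, h2, h3, h4⟩ := mem_filter.1 hv
    simp only [Finset.coe_Ioc, Set.mem_Ioc]
    exact ⟨h3, h4⟩
  · intro v hv v' hv' hvv
    by_contra hne
    obtain ⟨hvU, h1, h2, h3, h4⟩ := mem_filter.1 hv
    obtain ⟨hvU', h1', h2', h3', h4'⟩ := mem_filter.1 hv'
    exact h v hvU v' hvU' hne (X1 v) (Y2 u) le_rfl (hX v) h1 h2 (by omega)
      (by rw [hvv]; exact hX v') h1' h2'

/-- signed lower end -/
def SL (s : Bool) (lo hi : ι → Fin 3 → ℤ) (i : Fin 3) : ι → ℤ :=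
  fun w => if s then lo w i else - hi w i

/-- signed upper end -/
def SH (s : Bool) (lo hi : ι → Fin 3 → ℤ) (i : Fin 3) : ι → ℤ :=
  fun w => if s then hi w i else - lo w i

/-- disjointness of boxes, on grid points -/
def BoxDisj (lo hi : ι → Fin 3 → ℤ) : Prop :=
  ∀ v w, v ≠ w → ∀ p : Fin 3 → ℤ, (∀ i, lo v i ≤ p i ∧ p i ≤ hi v i) →
    (∀ i, lo w i ≤ p i ∧ p i ≤ hi w i) → False

theorem rdisj_raw {lo hi : ι → Fin 3 → ℤ} (hd : BoxDisj lo hi) {U : Finset ι} {k : Fin 3} {z0 : ℤ}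
    (hU : ∀ w ∈ U, lo w k ≤ z0 ∧ z0 ≤ hi w k) {i j : Fin 3} (hij : i ≠ j) (hik : i ≠ k)
    (hjk : j ≠ k) {v w : ι} (hv : v ∈ U) (hw : w ∈ U) (hvw : v ≠ w) (x y : ℤ)
    (h1 : lo v i ≤ x) (h2 : x ≤ hi v i) (h3 : lo v j ≤ y) (h4 : y ≤ hi v j)
    (h5 : lo w i ≤ x) (h6 : x ≤ hi w i) (h7 : lo w j ≤ y) (h8 : y ≤ hi w j) : False := by
  have hcov : ∀ l : Fin 3, l = i ∨ l = j ∨ l = k := by
    intro l
    fin_cases i <;> fin_cases j <;> fin_cases k <;> fin_cases l <;> simp_all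
  refine hd v w hvw (fun l => if l = i then x else if l = j then y else z0) ?_ ?_
  · intro l
    rcases hcov l with rfl | rfl | rfl
    · simp [h1, h2]
    · simp [hij.symm, h3, h4]
    · simp [hik.symm, hjk.symm, hU v hv]
  · intro l
    rcases hcov l with rfl | rfl | rfl
    · simp [h5, h6]
    · simp [hij.symm, h7, h8]
    · simp [hik.symm, hjk.symm, hU w hw]

theorem rdisj_signed {lo hi : ι → Fin 3 → ℤ} (hd : BoxDisj lo hi) {U : Finset ι} {k : Fin 3} {z0 : ℤ}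
    (hU : ∀ w ∈ U, lo w k ≤ z0 ∧ z0 ≤ hi w k) {i j : Fin 3} (hij : i ≠ j) (hik : i ≠ k)
    (hjk : j ≠ k) (s1 s2 : Bool) :
    Rdisj (SL s1 lo hi i) (SH s1 lo hi i) (SL s2 lo hi j) (SH s2 lo hi j) U := by
  intro v hv w hw hvw x y h1 h2 h3 h4 h5 h6 h7 h8
  cases s1 <;> cases s2 <;> simp only [SL, SH, if_true, if_false, Bool.false_eq_true] at h1 h2 h3 h4 h5 h6 h7 h8
  · exact rdisj_raw hd hU hij hik hjk hv hw hvw (-x) (-y) (by omega) (by omega) (by omega) (by omega)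
      (by omega) (by omega) (by omega) (by omega)
  · exact rdisj_raw hd hU hij hik hjk hv hw hvw (-x) y (by omega) (by omega) (by omega) (by omega)
      (by omega) (by omega) (by omega) (by omega)
  · exact rdisj_raw hd hU hij hik hjk hv hw hvw x (-y) (by omega) (by omega) (by omega) (by omega)
      (by omega) (by omega) (by omega) (by omega)
  · exact rdisj_raw hd hU hij hik hjk hv hw hvw x y (by omega) (by omega) (by omega) (by omega)
      (by omega) (by omega) (by omega) (by omega)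

/-- the relation that is counted -/
def Q (lo hi : ι → Fin 3 → ℤ) (D : ℕ) (k : Fin 3) (U : Finset ι) (u v : ι) : Prop :=
  ∃ i j : Fin 3, i ≠ j ∧ i ≠ k ∧ j ≠ k ∧ ∃ s1 s2 s3 : Bool,
    Beta (SL s1 lo hi i) (SH s1 lo hi i) (SL s2 lo hi j) (SH s2 lo hi j) (SH s3 lo hi k) D U u v ∨
    Alpha (SL s1 lo hi i) (SH s1 lo hi i) (SL s2 lo hi j) (SH s2 lo hi j) D u v

open Classical in
theorem Q_card {lo hi : ι → Fin 3 → ℤ} (hle : ∀ w i, lo w i ≤ hi w i) (hd : BoxDisj lo hi)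
    {U : Finset ι} {k : Fin 3} {z0 : ℤ}
    (hU : ∀ w ∈ U, lo w k ≤ z0 ∧ z0 ≤ hi w k) (D : ℕ) (u : ι) :
    (U.filter (Q lo hi D k U u)).card ≤ 32 * D := by
  let P : Finset (Fin 3 × Fin 3 × Bool × Bool × Bool) :=
    univ.filter fun p => p.1 ≠ p.2.1 ∧ p.1 ≠ k ∧ p.2.1 ≠ k
  have hP : P.card = 16 := by
    fin_cases k <;> rfl
  let B : (Fin 3 × Fin 3 × Bool × Bool × Bool) → Finset ι := fun p =>
    U.filter (Beta (SL p.2.2.1 lo hi p.1) (SH p.2.2.1 lo hi p.1) (SL p.2.2.2.1 lo hi p.2.1)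
      (SH p.2.2.2.1 lo hi p.2.1) (SH p.2.2.2.2 lo hi k) D U u) ∪
    U.filter (Alpha (SL p.2.2.1 lo hi p.1) (SH p.2.2.1 lo hi p.1) (SL p.2.2.2.1 lo hi p.2.1)
      (SH p.2.2.2.1 lo hi p.2.1) D u)
  have hsub : U.filter (Q lo hi D k U u) ⊆ P.biUnion B := by
    intro v hv
    obtain ⟨hvU, i, j, hij, hik, hjk, s1, s2, s3, h⟩ := mem_filter.1 hv
    refine mem_biUnion.2 ⟨(i, j, s1, s2, s3), ?_, ?_⟩
    · exact mem_filter.2 ⟨mem_univ _, hij, hik, hjk⟩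
    · rcases h with h | h
      · exact mem_union_left _ (mem_filter.2 ⟨hvU, h⟩)
      · exact mem_union_right _ (mem_filter.2 ⟨hvU, h⟩)
  calc (U.filter (Q lo hi D k U u)).card ≤ (P.biUnion B).card := card_le_card hsub
    _ ≤ P.card * (2 * D) := by
        refine card_biUnion_le_card_mul _ _ _ ?_
        intro p hp
        obtain ⟨_, hij, hik, hjk⟩ := mem_filter.1 hp
        refine (card_union_le _ _).trans ?_
        have h1 := beta_card (SL p.2.2.1 lo hi p.1) (SH p.2.2.1 lo hi p.1) (SL p.2.2.2.1 lo hi p.2.1)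
          (SH p.2.2.2.1 lo hi p.2.1) (SH p.2.2.2.2 lo hi k) D U
          (rdisj_signed hd hU hij hik hjk _ _) u
        have h2 := alpha_card (SL p.2.2.1 lo hi p.1) (SH p.2.2.1 lo hi p.1) (SL p.2.2.2.1 lo hi p.2.1)
          (SH p.2.2.2.1 lo hi p.2.1) D U
          (rdisj_signed hd hU hij hik hjk _ _) (by
            intro v
            have := hle v p.1
            unfold SL SH
            split_ifs <;> omega) u
        omega
    _ = 32 * D := by rw [hP]; ring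

/-- The relevant properties of a short path with at most one bend from (the box of) `u` along the
axis `i` and then along the axis `j` to `v`, in the plane of level `z` perpendicular to the
axis `k`. -/
structure LPath (lo hi : ι → Fin 3 → ℤ) (D : ℕ) (i j k : Fin 3) (u v : ι) (xa x y yc z : ℤ) :
    Prop where
  hxa1 : lo u i ≤ xa
  hxa2 : xa ≤ hi u i
  hy1 : lo u j ≤ y
  hy2 : y ≤ hi u j
  hz1 : lo u k ≤ z
  hz2 : z ≤ hi u k
  hx1 : lo v i ≤ x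
  hx2 : x ≤ hi v i
  hyc1 : lo v j ≤ yc
  hyc2 : yc ≤ hi v j
  hzv1 : lo v k ≤ z
  hzv2 : z ≤ hi v k
  hD1 : |x - xa| ≤ D
  hD2 : |y - yc| ≤ D
  av1 : ∀ x', (xa ≤ x' ∧ x' ≤ x ∨ x ≤ x' ∧ x' ≤ xa) → lo u i ≤ x' → x' ≤ hi u i → x' = xa
  av2 : ∀ y', (yc ≤ y' ∧ y' ≤ y ∨ y ≤ y' ∧ y' ≤ yc) → lo v j ≤ y' → y' ≤ hi v j → y' = yc
  av3 : ∀ w y', (yc ≤ y' ∧ y' ≤ y ∨ y ≤ y' ∧ y' ≤ yc) → y' ≠ yc → x ≠ xa →
    lo w i ≤ x → x ≤ hi w i → lo w j ≤ y' → y' ≤ hi w j → lo w k ≤ z → z ≤ hi w k → False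
  av4 : ∀ w x', (xa ≤ x' ∧ x' ≤ x ∨ x ≤ x' ∧ x' ≤ xa) → x' ≠ xa → y ≠ yc →
    lo w j ≤ y → y ≤ hi w j → lo w i ≤ x' → x' ≤ hi w i → lo w k ≤ z → z ≤ hi w k → False

theorem LPath.reverse {lo hi : ι → Fin 3 → ℤ} {D : ℕ} {i j k : Fin 3} {u v : ι}
    {xa x y yc z : ℤ} (P : LPath lo hi D i j k u v xa x y yc z) :
    LPath lo hi D j i k v u yc y x xa z where
  hxa1 := P.hyc1
  hxa2 := P.hyc2
  hy1 := P.hx1
  hy2 := P.hx2
  hz1 := P.hzv1
  hz2 := P.hzv2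
  hx1 := P.hy1
  hx2 := P.hy2
  hyc1 := P.hxa1
  hyc2 := P.hxa2
  hzv1 := P.hz1
  hzv2 := P.hz2
  hD1 := P.hD2
  hD2 := P.hD1
  av1 := P.av2
  av2 := P.av1
  av3 := P.av4
  av4 := P.av3

theorem alpha_case {lo hi : ι → Fin 3 → ℤ} (hle : ∀ w i, lo w i ≤ hi w i) (hd : BoxDisj lo hi)
    {U : Finset ι} {k : Fin 3} {z0 : ℤ}
    (hU : ∀ w ∈ U, lo w k ≤ z0 ∧ z0 ≤ hi w k) {D : ℕ} {i j : Fin 3} (hij : i ≠ j) (hik : i ≠ k)
    (hjk : j ≠ k) {u v : ι} (hu : u ∈ U) (hv : v ∈ U) (huv : u ≠ v) {xa x : ℤ}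
    (h1 : lo u i ≤ xa) (h2 : xa ≤ hi u i) (h3 : lo v i ≤ x) (h4 : x ≤ hi v i)
    (hD : |x - xa| ≤ D) (ho1 : lo v j ≤ hi u j) (ho2 : lo u j ≤ hi v j) :
    Q lo hi D k U u v ∨ Q lo hi D k U v u := by
  rw [abs_le] at hD
  have hI : hi u i < lo v i ∨ hi v i < lo u i := by
    by_contra hcon
    push Not at hcon
    refine rdisj_raw hd hU hij hik hjk hu hv huv (max (lo u i) (lo v i)) (max (lo u j) (lo v j))
      (le_max_left _ _) ?_ (le_max_left _ _) ?_ (le_max_right _ _) ?_ (le_max_right _ _) ?_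
    · exact max_le (hle u i) hcon.1
    · exact max_le (hle u j) ho1
    · exact max_le hcon.2 (hle v i)
    · exact max_le ho2 (hle v j)
  rcases hI with hI | hI
  · rcases le_or_gt (hi u j) (hi v j) with hj | hj
    · left
      refine ⟨i, j, hij, hik, hjk, true, true, true, Or.inr ?_⟩
      simp only [Alpha, SL, SH, if_true]
      omega
    · right
      refine ⟨i, j, hij, hik, hjk, false, true, true, Or.inr ?_⟩
      simp only [Alpha, SL, SH, if_true, if_false, Bool.false_eq_true]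
      omega
  · rcases le_or_gt (hi u j) (hi v j) with hj | hj
    · left
      refine ⟨i, j, hij, hik, hjk, false, true, true, Or.inr ?_⟩
      simp only [Alpha, SL, SH, if_true, if_false, Bool.false_eq_true]
      omega
    · right
      refine ⟨i, j, hij, hik, hjk, true, true, true, Or.inr ?_⟩
      simp only [Alpha, SL, SH, if_true]
      omega

theorem path_half {lo hi : ι → Fin 3 → ℤ} (hle : ∀ w i, lo w i ≤ hi w i) (hd : BoxDisj lo hi)
    {U : Finset ι} {k : Fin 3} {z0 : ℤ}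
    (hU : ∀ w ∈ U, lo w k ≤ z0 ∧ z0 ≤ hi w k) {D : ℕ} {i j : Fin 3} (hij : i ≠ j) (hik : i ≠ k)
    (hjk : j ≠ k) {u v : ι} (hu : u ∈ U) (hv : v ∈ U) (huv : u ≠ v) {xa x y yc z : ℤ}
    (P : LPath lo hi D i j k u v xa x y yc z) (s3 : Bool)
    (hT : SH s3 lo hi k u ≤ SH s3 lo hi k v)
    (hz : ∀ w ∈ U, SH s3 lo hi k u ≤ SH s3 lo hi k w → lo w k ≤ z ∧ z ≤ hi w k) :
    Q lo hi D k U u v ∨ Q lo hi D k U v u := by
  by_cases hJ : lo v j ≤ hi u j ∧ lo u j ≤ hi v j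
  · exact alpha_case hle hd hU hij hik hjk hu hv huv P.hxa1 P.hxa2 P.hx1 P.hx2 P.hD1 hJ.1 hJ.2
  by_cases hI : lo v i ≤ hi u i ∧ lo u i ≤ hi v i
  · refine alpha_case hle hd hU hij.symm hjk hik hu hv huv P.hy1 P.hy2 P.hyc1 P.hyc2 ?_ hI.1 hI.2
    rw [abs_sub_comm]; exact P.hD2
  left
  have hD1 := abs_le.1 P.hD1
  have hx1 := P.hx1
  have hx2 := P.hx2
  have hy1 := P.hy1
  have hy2 := P.hy2
  have hyc1 := P.hyc1
  have hyc2 := P.hyc2
  have hxa1 := P.hxa1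
  have hxa2 := P.hxa2
  rcases (by omega : hi u i < lo v i ∨ hi v i < lo u i) with hI' | hI' <;>
    rcases (by omega : hi v j < lo u j ∨ hi u j < lo v j) with hJ' | hJ'
  · have e := P.av1 (hi u i) (Or.inl ⟨hxa2, by omega⟩) (hle u i) le_rfl
    refine ⟨i, j, hij, hik, hjk, true, true, s3, Or.inl ⟨huv.symm, hT, x, y, yc, ?_⟩⟩
    simp only [SL, SH, if_true]
    refine ⟨by omega, by omega, by omega, by omega, by omega, by omega, by omega, by omega, ?_⟩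
    rintro w hw hTw y' h1 h2 ⟨h3, h4, h5, h6⟩
    obtain ⟨h7, h8⟩ := hz w hw hTw
    exact P.av3 w y' (Or.inl ⟨by omega, by omega⟩) (by omega) (by omega) h3 h4 h5 h6 h7 h8
  · have e := P.av1 (hi u i) (Or.inl ⟨hxa2, by omega⟩) (hle u i) le_rfl
    refine ⟨i, j, hij, hik, hjk, true, false, s3, Or.inl ⟨huv.symm, hT, x, -y, -yc, ?_⟩⟩
    simp only [SL, SH, if_true, if_false, Bool.false_eq_true]
    refine ⟨by omega, by omega, by omega, by omega, by omega, by omega, by omega, by omega, ?_⟩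
    rintro w hw hTw y' h1 h2 ⟨h3, h4, h5, h6⟩
    obtain ⟨h7, h8⟩ := hz w hw hTw
    exact P.av3 w (-y') (Or.inr ⟨by omega, by omega⟩) (by omega) (by omega) h3 h4 (by omega)
      (by omega) h7 h8
  · have e := P.av1 (lo u i) (Or.inr ⟨by omega, by omega⟩) le_rfl (hle u i)
    refine ⟨i, j, hij, hik, hjk, false, true, s3, Or.inl ⟨huv.symm, hT, -x, y, yc, ?_⟩⟩
    simp only [SL, SH, if_true, if_false, Bool.false_eq_true]
    refine ⟨by omega, by omega, by omega, by omega, by omega, by omega, by omega, by omega, ?_⟩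
    rintro w hw hTw y' h1 h2 ⟨h3, h4, h5, h6⟩
    obtain ⟨h7, h8⟩ := hz w hw hTw
    exact P.av3 w y' (Or.inl ⟨by omega, by omega⟩) (by omega) (by omega) (by omega) (by omega)
      h5 h6 h7 h8
  · have e := P.av1 (lo u i) (Or.inr ⟨by omega, by omega⟩) le_rfl (hle u i)
    refine ⟨i, j, hij, hik, hjk, false, false, s3, Or.inl ⟨huv.symm, hT, -x, -y, -yc, ?_⟩⟩
    simp only [SL, SH, if_false, Bool.false_eq_true]
    refine ⟨by omega, by omega, by omega, by omega, by omega, by omega, by omega, by omega, ?_⟩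
    rintro w hw hTw y' h1 h2 ⟨h3, h4, h5, h6⟩
    obtain ⟨h7, h8⟩ := hz w hw hTw
    exact P.av3 w (-y') (Or.inr ⟨by omega, by omega⟩) (by omega) (by omega) (by omega) (by omega)
      (by omega) (by omega) h7 h8

theorem path_Q {lo hi : ι → Fin 3 → ℤ} (hle : ∀ w i, lo w i ≤ hi w i) (hd : BoxDisj lo hi)
    {U : Finset ι} {k : Fin 3} {z0 : ℤ}
    (hU : ∀ w ∈ U, lo w k ≤ z0 ∧ z0 ≤ hi w k) {D : ℕ} {i j : Fin 3} (hij : i ≠ j) (hik : i ≠ k)
    (hjk : j ≠ k) {u v : ι} (hu : u ∈ U) (hv : v ∈ U) (huv : u ≠ v) {xa x y yc z : ℤ}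
    (P : LPath lo hi D i j k u v xa x y yc z) :
    Q lo hi D k U u v ∨ Q lo hi D k U v u := by
  have key : ∃ s3 : Bool, ∀ u' : ι, lo u' k ≤ z → z ≤ hi u' k → ∀ w ∈ U,
      SH s3 lo hi k u' ≤ SH s3 lo hi k w → lo w k ≤ z ∧ z ≤ hi w k := by
    rcases le_or_gt z0 z with h | h
    · refine ⟨true, fun u' h1 h2 w hw h3 => ?_⟩
      have h4 := hU w hw
      simp only [SH, if_true] at h3
      omega
    · refine ⟨false, fun u' h1 h2 w hw h3 => ?_⟩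
      have h4 := hU w hw
      simp only [SH, if_false, Bool.false_eq_true] at h3
      omega
  obtain ⟨s3, hs⟩ := key
  rcases le_total (SH s3 lo hi k u) (SH s3 lo hi k v) with h | h
  · exact path_half hle hd hU hij hik hjk hu hv huv P s3 h (hs u P.hz1 P.hz2)
  · exact (path_half hle hd hU hij.symm hjk hik hv hu huv.symm P.reverse s3 h
      (hs v P.hzv1 P.hzv2)).symm

/-- There is a short path between `u` and `v` in a plane perpendicular to the axis `k`. -/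
def Cheap (lo hi : ι → Fin 3 → ℤ) (D : ℕ) (k : Fin 3) (u v : ι) : Prop :=
  u ≠ v ∧ ∃ i j : Fin 3, i ≠ j ∧ i ≠ k ∧ j ≠ k ∧ ∃ xa x y yc z : ℤ,
    LPath lo hi D i j k u v xa x y yc z

open Classical in
theorem cheap_common {lo hi : ι → Fin 3 → ℤ} (hle : ∀ w i, lo w i ≤ hi w i) (hd : BoxDisj lo hi)
    {U : Finset ι} {k : Fin 3} {z0 : ℤ}
    (hU : ∀ w ∈ U, lo w k ≤ z0 ∧ z0 ≤ hi w k) (D : ℕ) :
    ((U ×ˢ U).filter fun p => Cheap lo hi D k p.1 p.2).card ≤ 64 * D * U.card := by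
  have h1 : ((U ×ˢ U).filter fun p => Q lo hi D k U p.1 p.2).card ≤ 32 * D * U.card := by
    have : ((U ×ˢ U).filter fun p => Q lo hi D k U p.1 p.2) ⊆
        U.biUnion fun u => (U.filter (Q lo hi D k U u)).image fun v => (u, v) := by
      rintro ⟨u, v⟩ hp
      obtain ⟨hp1, hp2⟩ := mem_filter.1 hp
      obtain ⟨hu, hv⟩ := mem_product.1 hp1
      exact mem_biUnion.2 ⟨u, hu, mem_image.2 ⟨v, mem_filter.2 ⟨hv, hp2⟩, rfl⟩⟩
    refine (card_le_card this).trans ((card_biUnion_le_card_mul _ _ (32 * D) ?_).trans ?_)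
    · intro u _
      exact card_image_le.trans (Q_card hle hd hU D u)
    · rw [mul_comm]
  have h2 : ((U ×ˢ U).filter fun p => Q lo hi D k U p.2 p.1).card ≤ 32 * D * U.card := by
    refine le_trans ?_ h1
    refine Finset.card_le_card_of_injOn Prod.swap ?_ (Prod.swap_injective.injOn)
    rintro ⟨u, v⟩ hp
    obtain ⟨hp1, hp2⟩ := mem_filter.1 hp
    obtain ⟨hu, hv⟩ := mem_product.1 hp1
    exact mem_filter.2 ⟨mem_product.2 ⟨hv, hu⟩, hp2⟩
  have h3 : ((U ×ˢ U).filter fun p => Cheap lo hi D k p.1 p.2) ⊆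
      ((U ×ˢ U).filter fun p => Q lo hi D k U p.1 p.2) ∪
      ((U ×ˢ U).filter fun p => Q lo hi D k U p.2 p.1) := by
    rintro ⟨u, v⟩ hp
    obtain ⟨hp1, huv, i, j, hij, hik, hjk, xa, x, y, yc, z, P⟩ := mem_filter.1 hp
    obtain ⟨hu, hv⟩ := mem_product.1 hp1
    rcases path_Q hle hd hU hij hik hjk hu hv huv P with h | h
    · exact mem_union_left _ (mem_filter.2 ⟨hp1, h⟩)
    · exact mem_union_right _ (mem_filter.2 ⟨hp1, h⟩)
  have h4 := (card_le_card h3).trans (card_union_le _ _)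
  calc _ ≤ _ := h4
    _ ≤ 32 * D * U.card + 32 * D * U.card := Nat.add_le_add h1 h2
    _ = 64 * D * U.card := by ring

end Pool.Agent.Helper27.BoxDraw
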