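import Mathlib

/-!
# Three-dimensional orthogonal box-drawings with at most one bend per edge: definitions
-/

namespace Pool.Agent.Helper27.BoxDraw

/-- A grid box `[lo 0, hi 0] × [lo 1, hi 1] × [lo 2, hi 2]` with integer corners; it may be
degenerate. -/
structure GBox where
  lo : Fin 3 → ℤ
  hi : Fin 3 → ℤ
  le : ∀ i, lo i ≤ hi i

/-- A grid point, regarded as a point of `ℝ³`. -/
def pt (p : Fin 3 → ℤ) : Fin 3 → ℝ := fun i => (p i : ℝ)

/-- The points of `ℝ³` in the box. -/
def GBox.toSet (B : GBox) : Set (Fin 3 → ℝ) := {x | ∀ i, (B.lo i : ℝ) ≤ x i ∧ x i ≤ (B.hi i : ℝ)}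

/-- The surface of the box. -/
def GBox.surface (B : GBox) : Set (Fin 3 → ℝ) :=
  {x | x ∈ B.toSet ∧ ∃ i, x i = (B.lo i : ℝ) ∨ x i = (B.hi i : ℝ)}

/-- The number of grid points in the box. -/
noncomputable def GBox.vol (B : GBox) : ℕ := (Finset.Icc B.lo B.hi).card

/-- An axis-parallel polygonal path with grid point vertices and at most one bend: it runs from `a`
to `b` parallel to the axis `i`, and from `b` to `c` parallel to another axis `j`. (If `a = b` or
`b = c` there is no bend.) -/
structure Route where
  a : Fin 3 → ℤ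
  b : Fin 3 → ℤ
  c : Fin 3 → ℤ
  i : Fin 3
  j : Fin 3
  ne : i ≠ j
  hab : ∀ k, k ≠ i → a k = b k
  hbc : ∀ k, k ≠ j → b k = c k

/-- The points of `ℝ³` on the path. -/
def Route.toSet (R : Route) : Set (Fin 3 → ℝ) :=
  segment ℝ (pt R.a) (pt R.b) ∪ segment ℝ (pt R.b) (pt R.c)

/-- A 3D orthogonal 1-bend box-drawing of the graph `G`: every vertex is a grid box, the boxes are
pairwise disjoint; every edge `uv` is an axis-parallel path with at most one bend that starts on the
surface of the box of one end of the edge and ends on the surface of the box of the other end; apart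
from its end points it meets no box; and the paths of distinct edges are disjoint. -/
structure Drawing {V : Type*} (G : SimpleGraph V) where
  box : V → GBox
  route : G.edgeSet → Route
  box_disjoint : ∀ u v, u ≠ v → Disjoint (box u).toSet (box v).toSet
  ends : ∀ e : G.edgeSet, ∃ u v, (e : Sym2 V) = s(u, v) ∧
    pt (route e).a ∈ (box u).surface ∧ pt (route e).c ∈ (box v).surface
  avoid : ∀ e w, (route e).toSet ∩ (box w).toSet ⊆ {pt (route e).a, pt (route e).c}
  route_disjoint : ∀ e f, e ≠ f → Disjoint (route e).toSet (route f).toSet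

/-- The drawing lies in the box `B`. -/
def Drawing.In {V : Type*} {G : SimpleGraph V} (D : Drawing G) (B : GBox) : Prop :=
  (∀ v, (D.box v).toSet ⊆ B.toSet) ∧ ∀ e, (D.route e).toSet ⊆ B.toSet

/-- `V₁(n)`: the minimum volume (number of grid points of an axis-parallel box containing the
drawing) of a 3D orthogonal 1-bend box-drawing of the complete graph with `n` vertices. -/
noncomputable def V1 (n : ℕ) : ℕ :=
  sInf {m | ∃ (D : Drawing (⊤ : SimpleGraph (Fin n))) (B : GBox), D.In B ∧ B.vol = m}

end Pool.Agent.Helper27.BoxDraw
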