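import Mathlib

namespace Pool.Agent.Helper27.BoxDraw

open Finset

variable {ι : Type*}

open Classical in
/-- `z` is a threshold: a multiple of `q` lies in `(#{t < z}, #{t ≤ z}]`. -/
def Thr (W : Finset ι) (t : ι → ℤ) (q : ℕ) (z : ℤ) : Prop :=
  ∃ j : ℕ, (W.filter fun w => t w < z).card < j * q ∧ j * q ≤ (W.filter fun w => t w ≤ z).card

open Classical in
theorem gap_card (W : Finset ι) (t : ι → ℤ) (q : ℕ) (hq : 1 ≤ q) (a b : ℤ)
    (h : ∀ z, a ≤ z → z ≤ b → ¬ Thr W t q z) :
    (W.filter fun w => a ≤ t w ∧ t w ≤ b).card ≤ q := by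
  by_contra hcon
  push Not at hcon
  have hab : a ≤ b := by
    have : 0 < (W.filter fun w => a ≤ t w ∧ t w ≤ b).card := by omega
    obtain ⟨w, hw⟩ := card_pos.1 this
    have := (mem_filter.1 hw).2
    omega
  have hsum : (W.filter fun w => t w < a).card + (W.filter fun w => a ≤ t w ∧ t w ≤ b).card ≤
      (W.filter fun w => t w ≤ b).card := by
    rw [← card_union_of_disjoint]
    · apply card_le_card
      intro w hw
      rcases mem_union.1 hw with hw | hw
      · obtain ⟨h1, h2⟩ := mem_filter.1 hw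
        exact mem_filter.2 ⟨h1, by omega⟩
      · obtain ⟨h1, h2⟩ := mem_filter.1 hw
        exact mem_filter.2 ⟨h1, by omega⟩
    · rw [disjoint_left]
      intro w hw hw'
      have h1 := (mem_filter.1 hw).2
      have h2 := (mem_filter.1 hw').2
      omega
  set A := (W.filter fun w => t w < a).card with hA
  set j := A / q + 1 with hj
  have hj1 : A < j * q := by
    rw [hj]
    have := Nat.lt_mul_div_succ A (by omega : 0 < q)
    nlinarith
  have hj2 : j * q ≤ A + q := by
    rw [hj]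
    have := Nat.div_mul_le_self A q
    nlinarith
  let S := (Finset.Icc a b).filter fun z => j * q ≤ (W.filter fun w => t w ≤ z).card
  have hS : S.Nonempty := ⟨b, mem_filter.2 ⟨mem_Icc.2 ⟨hab, le_rfl⟩, by omega⟩⟩
  obtain ⟨hz1, hz2⟩ := mem_filter.1 (S.min'_mem hS)
  obtain ⟨hz3, hz4⟩ := mem_Icc.1 hz1
  set z := S.min' hS with hz
  refine h z hz3 hz4 ⟨j, ?_, hz2⟩
  rcases eq_or_lt_of_le hz3 with he | hlt
  · rw [← he]; exact hj1
  · by_contra hcon2
    push Not at hcon2
    have hmem : z - 1 ∈ S := by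
      refine mem_filter.2 ⟨mem_Icc.2 ⟨by omega, by omega⟩, ?_⟩
      refine hcon2.trans (card_le_card ?_)
      intro w hw
      obtain ⟨h1, h2⟩ := mem_filter.1 hw
      exact mem_filter.2 ⟨h1, by omega⟩
    have := S.min'_le _ hmem
    omega

open Classical in
theorem thr_card (W : Finset ι) (t : ι → ℤ) (q : ℕ) (hq : 1 ≤ q) :
    ∃ T : Finset ℤ, (∀ z, Thr W t q z → z ∈ T) ∧ T.card ≤ W.card / q := by
  refine ⟨(W.image t).filter (Thr W t q), ?_, ?_⟩
  · intro z hz
    refine mem_filter.2 ⟨?_, hz⟩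
    obtain ⟨j, h1, h2⟩ := hz
    by_contra hcon
    have : (W.filter fun w => t w ≤ z) ⊆ (W.filter fun w => t w < z) := by
      intro w hw
      obtain ⟨h3, h4⟩ := mem_filter.1 hw
      refine mem_filter.2 ⟨h3, lt_of_le_of_ne h4 ?_⟩
      rintro rfl
      exact hcon (mem_image_of_mem t h3)
    have := card_le_card this
    omega
  · have hex : ∀ z ∈ (W.image t).filter (Thr W t q), ∃ j : ℕ,
        (W.filter fun w => t w < z).card < j * q ∧ j * q ≤ (W.filter fun w => t w ≤ z).card :=
      fun z hz => (mem_filter.1 hz).2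
    choose! f hf using hex
    have hc : (Finset.Icc 1 (W.card / q)).card = W.card / q := by simp
    refine le_of_le_of_eq (Finset.card_le_card_of_injOn f ?_ ?_) hc
    · intro z hz
      rw [mem_coe] at hz
      obtain ⟨h1, h2⟩ := hf z hz
      rw [mem_coe, mem_Icc]
      constructor
      · rcases Nat.eq_zero_or_pos (f z) with h | h
        · rw [h] at h1; omega
        · exact h
      · rw [Nat.le_div_iff_mul_le (by omega)]
        exact h2.trans (card_filter_le _ _)
    · intro z hz z' hz' hzz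
      rw [mem_coe] at hz hz'
      obtain ⟨h1, h2⟩ := hf z hz
      obtain ⟨h1', h2'⟩ := hf z' hz'
      have key : ∀ x y : ℤ, x < y → (W.filter fun w => t w ≤ x).card ≤
          (W.filter fun w => t w < y).card := by
        intro x y hxy
        apply card_le_card
        intro w hw
        obtain ⟨h3, h4⟩ := mem_filter.1 hw
        exact mem_filter.2 ⟨h3, by omega⟩
      rcases lt_trichotomy z z' with h | h | h
      · have := key _ _ h
        rw [hzz] at h2
        omega
      · exact h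
      · have := key _ _ h
        rw [← hzz] at h2'
        omega

open Classical in
theorem threshold (W : Finset ι) (s t : ι → ℤ) (hst : ∀ w, s w ≤ t w) (R : ι → ι → Prop)
    (hR : ∀ u v, R u v → s u ≤ t v ∧ s v ≤ t u) (M q : ℕ) (hq : 1 ≤ q)
    (hM : ∀ z, (((W.filter fun w => s w ≤ z ∧ z ≤ t w) ×ˢ
      (W.filter fun w => s w ≤ z ∧ z ≤ t w)).filter fun p => R p.1 p.2).card ≤ M) :
    ∃ W' ⊆ W, W.card ≤ 2 * W'.card ∧
      ((W' ×ˢ W').filter fun p => R p.1 p.2).card ≤ 2 * q * W.card + (W.card / q) * M := by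
  let Long : ι → Prop := fun w => ∃ z, s w ≤ z ∧ z ≤ t w ∧ Thr W t q z
  -- the homogeneous class
  have hW' : ∃ W' ⊆ W, W.card ≤ 2 * W'.card ∧ ∀ u ∈ W', ∀ v ∈ W', Long v → Long u := by
    have hsplit : (W.filter Long).card + (W.filter fun w => ¬ Long w).card = W.card :=
      card_filter_add_card_filter_not _
    rcases le_total (W.filter Long).card (W.filter fun w => ¬ Long w).card with h | h
    · refine ⟨W.filter fun w => ¬ Long w, filter_subset _ _, by omega, ?_⟩
      intro u hu v hv hl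
      exact absurd hl (mem_filter.1 hv).2
    · refine ⟨W.filter Long, filter_subset _ _, by omega, ?_⟩
      intro u hu v hv hl
      exact (mem_filter.1 hu).2
  obtain ⟨W', hsub, hcard, hhom⟩ := hW'
  refine ⟨W', hsub, hcard, ?_⟩
  obtain ⟨T, hT, hTc⟩ := thr_card W t q hq
  let P1 : ι → ι → Prop := fun u v => s v ≤ t u ∧ ∀ z, s v ≤ z → z ≤ t u → ¬ Thr W t q z
  have hP1 : ∀ v, (W.filter fun u => P1 u v).card ≤ q := by
    intro v
    rcases (W.filter fun u => P1 u v).eq_empty_or_nonempty with he | hne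
    · rw [he]; simp
    · obtain ⟨u0, hu0, hmax⟩ := exists_max_image _ t hne
      refine le_trans (card_le_card ?_) (gap_card W t q hq (s v) (t u0) (mem_filter.1 hu0).2.2)
      intro u hu
      obtain ⟨h1, h2⟩ := mem_filter.1 hu
      exact mem_filter.2 ⟨h1, h2.1, hmax u hu⟩
  have hA : ((W' ×ˢ W').filter fun p => P1 p.1 p.2).card ≤ q * W.card := by
    have : ((W' ×ˢ W').filter fun p => P1 p.1 p.2) ⊆
        W.biUnion fun v => (W.filter fun u => P1 u v).image fun u => (u, v) := by
      rintro ⟨u, v⟩ hp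
      obtain ⟨hp1, hp2⟩ := mem_filter.1 hp
      obtain ⟨hu, hv⟩ := mem_product.1 hp1
      exact mem_biUnion.2 ⟨v, hsub hv, mem_image.2 ⟨u, mem_filter.2 ⟨hsub hu, hp2⟩, rfl⟩⟩
    refine (card_le_card this).trans ((card_biUnion_le_card_mul _ _ q ?_).trans ?_)
    · intro v _
      exact card_image_le.trans (hP1 v)
    · rw [mul_comm]
  have hB : ((W' ×ˢ W').filter fun p => P1 p.2 p.1).card ≤ q * W.card := by
    refine le_trans ?_ hA
    refine Finset.card_le_card_of_injOn Prod.swap ?_ (Prod.swap_injective.injOn)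
    rintro ⟨u, v⟩ hp
    rw [mem_coe] at hp
    obtain ⟨hp1, hp2⟩ := mem_filter.1 hp
    obtain ⟨hu, hv⟩ := mem_product.1 hp1
    exact mem_coe.2 (mem_filter.2 ⟨mem_product.2 ⟨hv, hu⟩, hp2⟩)
  let C := T.biUnion fun z => (((W.filter fun w => s w ≤ z ∧ z ≤ t w) ×ˢ
      (W.filter fun w => s w ≤ z ∧ z ≤ t w)).filter fun p => R p.1 p.2)
  have hC : C.card ≤ (W.card / q) * M :=
    (card_biUnion_le_card_mul _ _ M fun z _ => hM z).trans (Nat.mul_le_mul_right _ hTc)
  have hcov : ((W' ×ˢ W').filter fun p => R p.1 p.2) ⊆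
      (((W' ×ˢ W').filter fun p => P1 p.1 p.2) ∪ ((W' ×ˢ W').filter fun p => P1 p.2 p.1)) ∪ C := by
    rintro ⟨u, v⟩ hp
    obtain ⟨hp1, hp2⟩ := mem_filter.1 hp
    obtain ⟨hu, hv⟩ := mem_product.1 hp1
    simp only at hp2
    obtain ⟨hr1, hr2⟩ := hR u v hp2
    by_cases hcom : ∃ z, Thr W t q z ∧ s u ≤ z ∧ z ≤ t u ∧ s v ≤ z ∧ z ≤ t v
    · obtain ⟨z, hz, h1, h2, h3, h4⟩ := hcom
      refine mem_union_right _ (mem_biUnion.2 ⟨z, hT z hz, mem_filter.2 ⟨mem_product.2 ⟨?_, ?_⟩, hp2⟩⟩)
      · exact mem_filter.2 ⟨hsub hu, h1, h2⟩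
      · exact mem_filter.2 ⟨hsub hv, h3, h4⟩
    · push Not at hcom
      have aux : ∀ u ∈ W', ∀ v ∈ W', s v ≤ t u → t u ≤ t v →
          (∀ z, Thr W t q z → s u ≤ z → z ≤ t u → s v ≤ z → ¬ z ≤ t v) → P1 u v := by
        intro u hu v hv h1 h2 h3
        refine ⟨h1, fun z hz1 hz2 hz => ?_⟩
        by_cases hz3 : s u ≤ z
        · exact h3 z hz hz3 hz2 hz1 (hz2.trans h2)
        · obtain ⟨z', hz'1, hz'2, hz'⟩ := hhom u hu v hv ⟨z, hz1, hz2.trans h2, hz⟩
          exact h3 z' hz' hz'1 hz'2 (by omega) (hz'2.trans h2)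
      rcases le_total (t u) (t v) with h | h
      · refine mem_union_left _ (mem_union_left _ (mem_filter.2 ⟨hp1, ?_⟩))
        exact aux u hu v hv hr2 h (fun z a b c d => by have := hcom z a b c d; omega)
      · refine mem_union_left _ (mem_union_right _ (mem_filter.2 ⟨hp1, ?_⟩))
        exact aux v hv u hu hr1 h (fun z a b c d e => by have := hcom z a d e b; omega)
  calc _ ≤ _ := card_le_card hcov
    _ ≤ (((W' ×ˢ W').filter fun p => P1 p.1 p.2).card +
          ((W' ×ˢ W').filter fun p => P1 p.2 p.1).card) + C.card :=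
        (card_union_le _ _).trans (Nat.add_le_add_right (card_union_le _ _) _)
    _ ≤ (q * W.card + q * W.card) + (W.card / q) * M := by
        exact Nat.add_le_add (Nat.add_le_add hA hB) hC
    _ = _ := by ring

end Pool.Agent.Helper27.BoxDraw
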