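import Mathlib
import Pool.Agent.Helper27.BoxDraw.Defs
import Pool.Agent.Helper27.BoxDraw.Core
import Pool.Agent.Helper27.BoxDraw.Threshold

namespace Pool.Agent.Helper27.BoxDraw

open Finset

theorem update_mem_segment {p q : Fin 3 → ℤ} {i : Fin 3} (h : ∀ k, k ≠ i → p k = q k) {x : ℤ}
    (hx : p i ≤ x ∧ x ≤ q i ∨ q i ≤ x ∧ x ≤ p i) :
    pt (Function.update p i x) ∈ segment ℝ (pt p) (pt q) := by
  by_cases he : p i = q i
  · have hpx : x = p i := by omega
    rw [hpx, Function.update_eq_self]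
    exact left_mem_segment _ _ _
  · have hne : ((q i : ℝ) - p i) ≠ 0 := by
      intro h0
      apply he
      have : (q i : ℝ) = p i := by linarith
      exact_mod_cast this.symm
    refine ⟨((q i : ℝ) - x) / (q i - p i), ((x : ℝ) - p i) / (q i - p i), ?_, ?_, ?_, ?_⟩
    · rcases hx with ⟨h1, h2⟩ | ⟨h1, h2⟩
      · have h1' : (p i : ℝ) ≤ x := by exact_mod_cast h1
        have h2' : (x : ℝ) ≤ q i := by exact_mod_cast h2
        exact div_nonneg (by linarith) (by linarith)
      · have h1' : (q i : ℝ) ≤ x := by exact_mod_cast h1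
        have h2' : (x : ℝ) ≤ p i := by exact_mod_cast h2
        exact div_nonneg_of_nonpos (by linarith) (by linarith)
    · rcases hx with ⟨h1, h2⟩ | ⟨h1, h2⟩
      · have h1' : (p i : ℝ) ≤ x := by exact_mod_cast h1
        have h2' : (x : ℝ) ≤ q i := by exact_mod_cast h2
        exact div_nonneg (by linarith) (by linarith)
      · have h1' : (q i : ℝ) ≤ x := by exact_mod_cast h1
        have h2' : (x : ℝ) ≤ p i := by exact_mod_cast h2
        exact div_nonneg_of_nonpos (by linarith) (by linarith)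
    · rw [← add_div, div_eq_one_iff_eq hne]; ring
    · funext k
      simp only [Pi.add_apply, Pi.smul_apply, smul_eq_mul, pt]
      by_cases hk : k = i
      · subst hk
        rw [Function.update_self]
        field_simp
        ring
      · rw [Function.update_of_ne hk, ← h k hk, ← add_mul, ← add_div]
        rw [show ((q i : ℝ) - x + (x - p i)) = q i - p i by ring, div_self hne, one_mul]

theorem pt_injective : Function.Injective pt := by
  intro p q h
  funext k
  have := congrFun h k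
  simp only [pt] at this
  exact_mod_cast this

theorem mem_toSet_pt {B : GBox} {p : Fin 3 → ℤ} : pt p ∈ B.toSet ↔ ∀ i, B.lo i ≤ p i ∧ p i ≤ B.hi i := by
  simp only [GBox.toSet, Set.mem_setOf_eq, pt]
  constructor
  · intro h i
    have := h i
    exact ⟨by exact_mod_cast this.1, by exact_mod_cast this.2⟩
  · intro h i
    have := h i
    exact ⟨by exact_mod_cast this.1, by exact_mod_cast this.2⟩

/-- the third axis -/
def third (i j : Fin 3) : Fin 3 := -(i + j)

theorem third_spec : ∀ i j : Fin 3, i ≠ j → i ≠ third i j ∧ j ≠ third i j := by decide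

variable {n : ℕ}

/-- the grid points of a route are not in more than the two end boxes -/
theorem path_of_route (D : Drawing (⊤ : SimpleGraph (Fin n))) (Dd : ℕ)
    (e : (⊤ : SimpleGraph (Fin n)).edgeSet) (u v : Fin n) (huv : u ≠ v)
    (ha : pt (D.route e).a ∈ (D.box u).surface) (hc : pt (D.route e).c ∈ (D.box v).surface)
    (h1 : |(D.route e).a (D.route e).i - (D.route e).b (D.route e).i| ≤ Dd)
    (h2 : |(D.route e).b (D.route e).j - (D.route e).c (D.route e).j| ≤ Dd) :
    Cheap (fun w => (D.box w).lo) (fun w => (D.box w).hi) Dd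
      (third (D.route e).i (D.route e).j) u v := by
  set R := D.route e with hR
  obtain ⟨t1, t2⟩ := third_spec R.i R.j R.ne
  set k := third R.i R.j with hk
  have hau := mem_toSet_pt.1 ha.1
  have hcv := mem_toSet_pt.1 hc.1
  have hcu : pt R.c ∉ (D.box u).toSet := fun h =>
    (Set.disjoint_left.1 (D.box_disjoint u v huv)) h hc.1
  have hav : pt R.a ∉ (D.box v).toSet := fun h =>
    (Set.disjoint_left.1 (D.box_disjoint u v huv)) ha.1 h
  have hbi : R.b R.i = R.c R.i := R.hbc _ R.ne
  have hbj : R.a R.j = R.b R.j := R.hab _ R.ne.symm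
  have hak : R.a k = R.b k := R.hab _ t1.symm
  have hbk : R.b k = R.c k := R.hbc _ t2.symm
  have hcov : ∀ l : Fin 3, l = R.i ∨ l = R.j ∨ l = k := by
    have : ∀ i j l : Fin 3, i ≠ j → l = i ∨ l = j ∨ l = third i j := by decide
    intro l
    exact this _ _ l R.ne
  -- points of the first leg
  have leg1 : ∀ x', (R.a R.i ≤ x' ∧ x' ≤ R.b R.i ∨ R.b R.i ≤ x' ∧ x' ≤ R.a R.i) →
      pt (Function.update R.a R.i x') ∈ R.toSet := by
    intro x' hx'
    exact Or.inl (update_mem_segment R.hab hx')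
  have leg2 : ∀ y', (R.c R.j ≤ y' ∧ y' ≤ R.b R.j ∨ R.b R.j ≤ y' ∧ y' ≤ R.c R.j) →
      pt (Function.update R.c R.j y') ∈ R.toSet := by
    intro y' hy'
    refine Or.inr ?_
    rw [segment_symm]
    exact update_mem_segment (fun k hk => (R.hbc k hk).symm) hy'
  refine ⟨huv, R.i, R.j, R.ne, t1, t2, R.a R.i, R.b R.i, R.b R.j, R.c R.j, R.a k, ?_⟩
  refine
    { hxa1 := (hau _).1, hxa2 := (hau _).2
      hy1 := by rw [← hbj]; exact (hau _).1
      hy2 := by rw [← hbj]; exact (hau _).2
      hz1 := (hau _).1, hz2 := (hau _).2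
      hx1 := by rw [hbi]; exact (hcv _).1
      hx2 := by rw [hbi]; exact (hcv _).2
      hyc1 := (hcv _).1, hyc2 := (hcv _).2
      hzv1 := by rw [hak, hbk]; exact (hcv _).1
      hzv2 := by rw [hak, hbk]; exact (hcv _).2
      hD1 := by rw [abs_sub_comm]; exact h1
      hD2 := h2
      av1 := ?_, av2 := ?_, av3 := ?_, av4 := ?_ }
  · intro x' hx' h3 h4
    have hmem : pt (Function.update R.a R.i x') ∈ (D.box u).toSet := by
      rw [mem_toSet_pt]
      intro l
      by_cases hl : l = R.i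
      · subst hl; rw [Function.update_self]; exact ⟨h3, h4⟩
      · rw [Function.update_of_ne hl]; exact hau l
    rcases D.avoid e u ⟨leg1 x' hx', hmem⟩ with h | h
    · have := congrFun (pt_injective h) R.i
      rw [Function.update_self] at this
      exact this
    · rw [Set.mem_singleton_iff] at h
      rw [h] at hmem
      exact absurd hmem hcu
  · intro y' hy' h3 h4
    have hmem : pt (Function.update R.c R.j y') ∈ (D.box v).toSet := by
      rw [mem_toSet_pt]
      intro l
      by_cases hl : l = R.j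
      · subst hl; rw [Function.update_self]; exact ⟨h3, h4⟩
      · rw [Function.update_of_ne hl]; exact hcv l
    rcases D.avoid e v ⟨leg2 y' hy', hmem⟩ with h | h
    · rw [h] at hmem
      exact absurd hmem hav
    · rw [Set.mem_singleton_iff] at h
      have := congrFun (pt_injective h) R.j
      rw [Function.update_self] at this
      exact this
  · intro w y' hy' hne hxne h3 h4 h5 h6 h7 h8
    have hmem : pt (Function.update R.c R.j y') ∈ (D.box w).toSet := by
      rw [mem_toSet_pt]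
      intro l
      rcases hcov l with rfl | rfl | rfl
      · rw [Function.update_of_ne R.ne, ← hbi]; exact ⟨h3, h4⟩
      · rw [Function.update_self]; exact ⟨h5, h6⟩
      · rw [Function.update_of_ne t2.symm, ← hbk, ← hak]; exact ⟨h7, h8⟩
    rcases D.avoid e w ⟨leg2 y' hy', hmem⟩ with h | h
    · have := congrFun (pt_injective h) R.i
      rw [Function.update_of_ne R.ne, ← hbi] at this
      exact hxne this
    · rw [Set.mem_singleton_iff] at h
      have := congrFun (pt_injective h) R.j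
      rw [Function.update_self] at this
      exact hne this
  · intro w x' hx' hne hyne h3 h4 h5 h6 h7 h8
    have hmem : pt (Function.update R.a R.i x') ∈ (D.box w).toSet := by
      rw [mem_toSet_pt]
      intro l
      rcases hcov l with rfl | rfl | rfl
      · rw [Function.update_self]; exact ⟨h5, h6⟩
      · rw [Function.update_of_ne R.ne.symm, hbj]; exact ⟨h3, h4⟩
      · rw [Function.update_of_ne t1.symm]; exact ⟨h7, h8⟩
    rcases D.avoid e w ⟨leg1 x' hx', hmem⟩ with h | h
    · have := congrFun (pt_injective h) R.i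
      rw [Function.update_self] at this
      exact hne this
    · rw [Set.mem_singleton_iff] at h
      have := congrFun (pt_injective h) R.j
      rw [Function.update_of_ne R.ne.symm, hbj] at this
      exact hyne this

/-- a route which is not short contains many grid points -/
theorem long_points (R : Route) (Dd : ℕ)
    (h : ¬ (|R.a R.i - R.b R.i| ≤ Dd ∧ |R.b R.j - R.c R.j| ≤ Dd)) :
    ∃ S : Finset (Fin 3 → ℤ), Dd + 1 ≤ S.card ∧ ∀ g ∈ S, pt g ∈ R.toSet := by
  classical
  have aux : ∀ (p q : Fin 3 → ℤ) (i : Fin 3), (∀ k, k ≠ i → p k = q k) → ¬ |p i - q i| ≤ Dd →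
      ∃ S : Finset (Fin 3 → ℤ), Dd + 1 ≤ S.card ∧ ∀ g ∈ S, pt g ∈ segment ℝ (pt p) (pt q) := by
    intro p q i hpq hD
    refine ⟨(Finset.Icc (min (p i) (q i)) (max (p i) (q i))).image (Function.update p i), ?_, ?_⟩
    · rw [card_image_of_injective _ (Function.update_injective p i), Int.card_Icc]
      have : max (p i) (q i) - min (p i) (q i) = |p i - q i| := by
        exact (max_sub_min_eq_abs (p i) (q i)).trans (abs_sub_comm _ _)
      omega
    · intro g hg
      obtain ⟨x, hx, rfl⟩ := mem_image.1 hg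
      refine update_mem_segment hpq ?_
      rw [mem_Icc] at hx
      omega
  by_cases h1 : |R.a R.i - R.b R.i| ≤ Dd
  · obtain ⟨S, hS, hg⟩ := aux R.b R.c R.j R.hbc (fun h2 => h ⟨h1, h2⟩)
    exact ⟨S, hS, fun g hgS => Or.inr (hg g hgS)⟩
  · obtain ⟨S, hS, hg⟩ := aux R.a R.b R.i R.hab h1
    exact ⟨S, hS, fun g hgS => Or.inl (hg g hgS)⟩

theorem boxDisj_of (D : Drawing (⊤ : SimpleGraph (Fin n))) :
    BoxDisj (fun w => (D.box w).lo) (fun w => (D.box w).hi) := by
  intro v w hvw p h1 h2
  exact Set.disjoint_left.1 (D.box_disjoint v w hvw) (mem_toSet_pt.2 h1) (mem_toSet_pt.2 h2)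

open Classical in
/-- one axis -/
theorem one_axis (lo hi : Fin n → Fin 3 → ℤ) (hle : ∀ w i, lo w i ≤ hi w i) (hd : BoxDisj lo hi)
    (k : Fin 3) (Dd q : ℕ) (hq : 1 ≤ q) (W : Finset (Fin n)) :
    ∃ W' ⊆ W, W.card ≤ 2 * W'.card ∧
      ((W' ×ˢ W').filter fun p => Cheap lo hi Dd k p.1 p.2).card ≤
        2 * q * n + (n / q) * (64 * Dd * n) := by
  have hWn : W.card ≤ n := by
    have := card_le_univ W
    simpa using this
  obtain ⟨W', h1, h2, h3⟩ := threshold W (fun w => lo w k) (fun w => hi w k) (fun w => hle w k)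
    (fun u v => Cheap lo hi Dd k u v)
    (by
      rintro u v ⟨_, i, j, _, _, _, xa, x, y, yc, z, P⟩
      exact ⟨P.hz1.trans P.hzv2, P.hzv1.trans P.hz2⟩)
    (64 * Dd * n) q hq
    (by
      intro z
      refine (cheap_common hle hd (U := W.filter fun w => lo w k ≤ z ∧ z ≤ hi w k) (z0 := z)
        (fun w hw => (mem_filter.1 hw).2) Dd).trans ?_
      exact Nat.mul_le_mul_left _ ((card_filter_le _ _).trans hWn))
  refine ⟨W', h1, h2, h3.trans ?_⟩
  exact Nat.add_le_add (Nat.mul_le_mul_left _ hWn)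
    (Nat.mul_le_mul_right _ (Nat.div_le_div_right hWn))

open Classical in
theorem lower (hn : 6144 ≤ n) (D : Drawing (⊤ : SimpleGraph (Fin n))) (B : GBox) (hB : D.In B) :
    n ^ 3 ≤ 618475290624 * B.vol := by
  set q := n / 6144 with hq
  set Dd := q / 196608 with hDd
  have hq1 : 1 ≤ q := by omega
  have hqn : q * 6144 ≤ n := Nat.div_mul_le_self _ _
  have hDq : Dd * 196608 ≤ q := Nat.div_mul_le_self _ _
  set lo : Fin n → Fin 3 → ℤ := fun w => (D.box w).lo with hlo
  set hi : Fin n → Fin 3 → ℤ := fun w => (D.box w).hi with hhi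
  have hle : ∀ w i, lo w i ≤ hi w i := fun w i => (D.box w).le i
  have hd : BoxDisj lo hi := boxDisj_of D
  obtain ⟨W1, s1, c1, r1⟩ := one_axis lo hi hle hd 0 Dd q hq1 univ
  obtain ⟨W2, s2, c2, r2⟩ := one_axis lo hi hle hd 1 Dd q hq1 W1
  obtain ⟨W3, s3, c3, r3⟩ := one_axis lo hi hle hd 2 Dd q hq1 W2
  set X := 2 * q * n + (n / q) * (64 * Dd * n) with hX
  have mono : ∀ (A A' : Finset (Fin n)) (k : Fin 3), A ⊆ A' →
      ((A' ×ˢ A').filter fun p => Cheap lo hi Dd k p.1 p.2).card ≤ X →
      ((A ×ˢ A).filter fun p => Cheap lo hi Dd k p.1 p.2).card ≤ X := by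
    intro A A' k hA h
    exact (card_le_card (filter_subset_filter _ (product_subset_product hA hA))).trans h
  have hk : ∀ k : Fin 3, ((W3 ×ˢ W3).filter fun p => Cheap lo hi Dd k p.1 p.2).card ≤ X := by
    intro k
    fin_cases k
    · exact mono _ _ _ (s3.trans s2) r1
    · exact mono _ _ _ s3 r2
    · exact r3
  have hk' : ∀ k : Fin 3, ((W3 ×ˢ W3).filter fun p => Cheap lo hi Dd k p.2 p.1).card ≤ X := by
    intro k
    refine le_trans ?_ (hk k)
    refine Finset.card_le_card_of_injOn Prod.swap ?_ (Prod.swap_injective.injOn)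
    rintro ⟨u, v⟩ hp
    rw [mem_coe] at hp
    obtain ⟨hp1, hp2⟩ := mem_filter.1 hp
    obtain ⟨hu, hv⟩ := mem_product.1 hp1
    exact mem_coe.2 (mem_filter.2 ⟨mem_product.2 ⟨hv, hu⟩, hp2⟩)
  have cW : n ≤ 8 * W3.card := by
    rw [card_univ, Fintype.card_fin] at c1
    omega
  set m := W3.card with hm
  -- the ordered pairs that are not joined by a short route
  let Bad : Fin n × Fin n → Prop := fun p => ∃ k : Fin 3, Cheap lo hi Dd k p.1 p.2 ∨
    Cheap lo hi Dd k p.2 p.1
  have hbad : (W3.offDiag.filter Bad).card ≤ 6 * X := by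
    have hsub : W3.offDiag.filter Bad ⊆ (univ : Finset (Fin 3)).biUnion fun k =>
        ((W3 ×ˢ W3).filter fun p => Cheap lo hi Dd k p.1 p.2) ∪
        ((W3 ×ˢ W3).filter fun p => Cheap lo hi Dd k p.2 p.1) := by
      intro p hp
      obtain ⟨hp1, k, hp2⟩ := mem_filter.1 hp
      obtain ⟨hu, hv, _⟩ := mem_offDiag.1 hp1
      refine mem_biUnion.2 ⟨k, mem_univ _, ?_⟩
      rcases hp2 with h | h
      · exact mem_union_left _ (mem_filter.2 ⟨mem_product.2 ⟨hu, hv⟩, h⟩)
      · exact mem_union_right _ (mem_filter.2 ⟨mem_product.2 ⟨hu, hv⟩, h⟩)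
    refine (card_le_card hsub).trans ((card_biUnion_le_card_mul _ _ (2 * X) ?_).trans ?_)
    · intro k _
      refine (card_union_le _ _).trans ?_
      have := hk k
      have := hk' k
      omega
    · simp; omega
  let NC := W3.offDiag.filter fun p => ¬ Bad p
  have hNC : m * m - m ≤ NC.card + 6 * X := by
    have h1 : (W3.offDiag.filter Bad).card + NC.card = W3.offDiag.card :=
      card_filter_add_card_filter_not _
    have h2 : W3.offDiag.card = m * m - m := offDiag_card _
    rw [h2] at h1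
    rw [← h1, add_comm]
    exact Nat.add_le_add_left hbad _
  let NCl := NC.filter fun p => p.1 < p.2
  have hNCl : NC.card ≤ 2 * NCl.card := by
    have h1 : (NC.filter fun p => p.1 < p.2).card + (NC.filter fun p => ¬ p.1 < p.2).card = NC.card :=
      card_filter_add_card_filter_not _
    have h2 : (NC.filter fun p => ¬ p.1 < p.2).card ≤ NCl.card := by
      refine Finset.card_le_card_of_injOn Prod.swap ?_ (Prod.swap_injective.injOn)
      rintro ⟨u, v⟩ hp
      rw [mem_coe] at hp
      obtain ⟨hp1, hp2⟩ := mem_filter.1 hp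
      obtain ⟨hp3, hp4⟩ := mem_filter.1 hp1
      obtain ⟨hu, hv, hne⟩ := mem_offDiag.1 hp3
      refine mem_coe.2 (mem_filter.2 ⟨mem_filter.2 ⟨mem_offDiag.2 ⟨hv, hu, hne.symm⟩, ?_⟩, ?_⟩)
      · rintro ⟨k, h⟩
        exact hp4 ⟨k, h.symm⟩
      · simp only at hp2 ⊢
        exact lt_of_le_of_ne (not_lt.1 hp2) hne.symm
    have h3 : NCl.card = (NC.filter fun p => p.1 < p.2).card := rfl
    omega
  -- routes of these pairs
  have hroute : ∀ p ∈ NCl, ∃ S : Finset (Fin 3 → ℤ), Dd + 1 ≤ S.card ∧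
      ∃ h : s(p.1, p.2) ∈ (⊤ : SimpleGraph (Fin n)).edgeSet,
        ∀ g ∈ S, pt g ∈ (D.route ⟨s(p.1, p.2), h⟩).toSet := by
    intro p hp
    obtain ⟨hp1, hp2⟩ := mem_filter.1 hp
    obtain ⟨hp3, hp4⟩ := mem_filter.1 hp1
    obtain ⟨hu, hv, hne⟩ := mem_offDiag.1 hp3
    have he : s(p.1, p.2) ∈ (⊤ : SimpleGraph (Fin n)).edgeSet := by
      rw [SimpleGraph.mem_edgeSet]; exact hne
    have hlong : ¬ (|(D.route ⟨_, he⟩).a (D.route ⟨_, he⟩).i - (D.route ⟨_, he⟩).b (D.route ⟨_, he⟩).i| ≤ Dd ∧
        |(D.route ⟨_, he⟩).b (D.route ⟨_, he⟩).j - (D.route ⟨_, he⟩).c (D.route ⟨_, he⟩).j| ≤ Dd) := by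
      rintro ⟨h1, h2⟩
      obtain ⟨u, v, huv, ha, hc⟩ := D.ends ⟨_, he⟩
      rw [Sym2.eq_iff] at huv
      apply hp4
      rcases huv with ⟨e1, e2⟩ | ⟨e1, e2⟩
      · subst e1 e2
        exact ⟨third (D.route ⟨_, he⟩).i (D.route ⟨_, he⟩).j, Or.inl
          (path_of_route D Dd _ _ _ hne ha hc h1 h2)⟩
      · subst e1 e2
        exact ⟨third (D.route ⟨_, he⟩).i (D.route ⟨_, he⟩).j, Or.inr
          (path_of_route D Dd _ _ _ hne.symm ha hc h1 h2)⟩
    obtain ⟨S, hS, hg⟩ := long_points _ Dd hlong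
    exact ⟨S, hS, he, hg⟩
  choose! S hS1 hS2 using hroute
  have hvol : NCl.card * (Dd + 1) ≤ B.vol := by
    have hdisj : ∀ p ∈ NCl, ∀ p' ∈ NCl, p ≠ p' → Disjoint (S p) (S p') := by
      intro p hp p' hp' hne
      rw [disjoint_left]
      intro g hg hg'
      obtain ⟨h1, h2⟩ := hS2 p hp
      obtain ⟨h1', h2'⟩ := hS2 p' hp'
      have hlt := (mem_filter.1 hp).2
      have hlt' := (mem_filter.1 hp').2
      have hedge : (⟨s(p.1, p.2), h1⟩ : (⊤ : SimpleGraph (Fin n)).edgeSet) ≠ ⟨s(p'.1, p'.2), h1'⟩ := by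
        intro h
        have h3 := congrArg Subtype.val h
        simp only [Sym2.eq_iff] at h3
        rcases h3 with ⟨e1, e2⟩ | ⟨e1, e2⟩
        · exact hne (Prod.ext e1 e2)
        · rw [e1, e2] at hlt
          exact lt_asymm hlt hlt'
      exact Set.disjoint_left.1 (D.route_disjoint _ _ hedge) (h2 g hg) (h2' g hg')
    have h1 : (NCl.biUnion S).card = ∑ p ∈ NCl, (S p).card := card_biUnion hdisj
    have h2 : NCl.card * (Dd + 1) ≤ ∑ p ∈ NCl, (S p).card := by
      rw [← smul_eq_mul]
      exact card_nsmul_le_sum _ _ _ hS1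
    have h3 : NCl.biUnion S ⊆ Finset.Icc B.lo B.hi := by
      intro g hg
      obtain ⟨p, hp, hg⟩ := mem_biUnion.1 hg
      obtain ⟨h4, h5⟩ := hS2 p hp
      have := mem_toSet_pt.1 (hB.2 _ (h5 g hg))
      rw [mem_Icc]
      exact ⟨fun i => (this i).1, fun i => (this i).2⟩
    calc _ ≤ _ := h2
      _ = _ := h1.symm
      _ ≤ _ := card_le_card h3
  -- numerical part
  have e1 : 512 * (12 * q * n) ≤ n * n := by nlinarith
  have e2 : 512 * (384 * ((n / q) * Dd) * n) ≤ n * n := by
    have h1 : (n / q) * q ≤ n := Nat.div_mul_le_self _ _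
    have h2 : (n / q) * Dd * 196608 ≤ n := by
      calc (n / q) * Dd * 196608 = (n / q) * (Dd * 196608) := by ring
        _ ≤ (n / q) * q := Nat.mul_le_mul_left _ hDq
        _ ≤ n := h1
    calc 512 * (384 * ((n / q) * Dd) * n) = ((n / q) * Dd * 196608) * n := by ring
      _ ≤ n * n := Nat.mul_le_mul_right _ h2
  have e3 : 6 * X = 12 * q * n + 384 * ((n / q) * Dd) * n := by rw [hX]; ring
  have e4 : n * n ≤ 128 * (m * m - m) := by
    have hm2 : 2 ≤ m := by omega
    have h1 : m * m ≤ 2 * (m * m - m) := by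
      have : 2 * m ≤ m * m := Nat.mul_le_mul_right _ hm2
      omega
    have h2 : n * n ≤ (8 * m) * (8 * m) := Nat.mul_le_mul cW cW
    nlinarith
  have e5 : n * n ≤ 512 * NCl.card := by omega
  have e6 : n ≤ 1207959552 * (Dd + 1) := by
    have h1 : n < 6144 * (q + 1) := by
      have := Nat.lt_mul_div_succ n (by norm_num : 0 < 6144)
      exact this
    have h2 : q < 196608 * (Dd + 1) := Nat.lt_mul_div_succ q (by norm_num : 0 < 196608)
    omega
  calc n ^ 3 = (n * n) * n := by ring
    _ ≤ (512 * NCl.card) * (1207959552 * (Dd + 1)) := Nat.mul_le_mul e5 e6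
    _ = 618475290624 * (NCl.card * (Dd + 1)) := by ring
    _ ≤ 618475290624 * B.vol := Nat.mul_le_mul_left _ hvol

theorem vol_pos (B : GBox) : 1 ≤ B.vol := by
  unfold GBox.vol
  rw [Nat.one_le_iff_ne_zero, Ne, card_eq_zero, ← Ne, ← nonempty_iff_ne_empty, nonempty_Icc]
  exact B.le

end Pool.Agent.Helper27.BoxDraw
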