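import Mathlib
import Pool.Agent.Helper27.BoxDraw.Defs

namespace Pool.Agent.Helper27.BoxDraw

theorem seg_eq {p q : Fin 3 → ℤ} {x : Fin 3 → ℝ} (hx : x ∈ segment ℝ (pt p) (pt q)) {k : Fin 3}
    (h : p k = q k) : x k = p k := by
  obtain ⟨s, t, hs, ht, hst, rfl⟩ := hx
  simp only [Pi.add_apply, Pi.smul_apply, smul_eq_mul, pt]
  rw [← h, ← add_mul, hst, one_mul]

theorem seg_between {p q : Fin 3 → ℤ} {x : Fin 3 → ℝ} (hx : x ∈ segment ℝ (pt p) (pt q)) {k : Fin 3}
    (h : p k ≤ q k) : (p k : ℝ) ≤ x k ∧ x k ≤ q k := by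
  obtain ⟨s, t, hs, ht, hst, rfl⟩ := hx
  simp only [Pi.add_apply, Pi.smul_apply, smul_eq_mul, pt]
  have h' : (p k : ℝ) ≤ q k := by exact_mod_cast h
  have e : s = 1 - t := by linarith
  subst e
  constructor <;> nlinarith

/-- the box of the vertex `v` in the standard drawing -/
def ubox (n : ℕ) (v : Fin n) : GBox where
  lo := ![(v : ℤ), (v : ℤ), 0]
  hi := ![(v : ℤ), (v : ℤ), (n : ℤ) - 1]
  le := by
    have h : (1 : ℤ) ≤ n := by exact_mod_cast (Fin.pos v)
    intro i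
    fin_cases i <;> simp
    omega

/-- the level of an edge -/
def lev (n : ℕ) (e : Sym2 (Fin n)) : ℤ := ((e.inf : ℕ) + (e.sup : ℕ)) % n

def uroute (n : ℕ) (e : Sym2 (Fin n)) : Route where
  a := ![(e.inf : ℕ), (e.inf : ℕ), lev n e]
  b := ![(e.inf : ℕ), (e.sup : ℕ), lev n e]
  c := ![(e.sup : ℕ), (e.sup : ℕ), lev n e]
  i := 1
  j := 0
  ne := by decide
  hab := by
    intro k hk
    fin_cases k <;> simp at hk ⊢
  hbc := by
    intro k hk
    fin_cases k <;> simp at hk ⊢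

theorem lev_nonneg (n : ℕ) (e : Sym2 (Fin n)) : 0 ≤ lev n e := by
  unfold lev
  exact Int.emod_nonneg _ (by have := Fin.pos e.inf; omega)

theorem lev_lt (n : ℕ) (hn : 1 ≤ n) (e : Sym2 (Fin n)) : lev n e < n := by
  unfold lev
  exact Int.emod_lt_of_pos _ (by exact_mod_cast hn)

theorem inf_le_sup' {n : ℕ} (e : Sym2 (Fin n)) : ((e.inf : ℕ) : ℤ) ≤ ((e.sup : ℕ) : ℤ) := by
  induction e with
  | _ x y =>
    simp only [Sym2.inf_mk, Sym2.sup_mk]
    exact_mod_cast (inf_le_sup : x ⊓ y ≤ x ⊔ y)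

theorem mem_uroute {n : ℕ} {e : Sym2 (Fin n)} {x : Fin 3 → ℝ} (hx : x ∈ (uroute n e).toSet) :
    (x 0 = ((e.inf : ℕ) : ℝ) ∧ ((e.inf : ℕ) : ℝ) ≤ x 1 ∧ x 1 ≤ ((e.sup : ℕ) : ℝ) ∧ x 2 = (lev n e : ℝ)) ∨
    (x 1 = ((e.sup : ℕ) : ℝ) ∧ ((e.inf : ℕ) : ℝ) ≤ x 0 ∧ x 0 ≤ ((e.sup : ℕ) : ℝ) ∧ x 2 = (lev n e : ℝ)) := by
  rcases hx with hx | hx
  · left
    have h0 := seg_eq hx (k := 0) (by simp [uroute])
    have h2 := seg_eq hx (k := 2) (by simp [uroute])
    have h1 := seg_between hx (k := 1) (by simpa [uroute] using inf_le_sup' e)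
    simp [uroute] at h0 h1 h2
    exact ⟨h0, h1.1, h1.2, h2⟩
  · right
    have h1 := seg_eq hx (k := 1) (by simp [uroute])
    have h2 := seg_eq hx (k := 2) (by simp [uroute])
    have h0 := seg_between hx (k := 0) (by simpa [uroute] using inf_le_sup' e)
    simp [uroute] at h0 h1 h2
    exact ⟨h1, h0.1, h0.2, h2⟩

theorem sym2_ext_inf_sup {n : ℕ} {e f : Sym2 (Fin n)} (h1 : e.inf = f.inf) (h2 : e.sup = f.sup) :
    e = f := by
  induction e with
  | _ x y =>
    induction f with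
    | _ z w =>
      simp only [Sym2.inf_mk, Sym2.sup_mk] at h1 h2
      rw [Sym2.eq_iff]
      rcases le_total x y with hxy | hxy <;> rcases le_total z w with hzw | hzw <;>
        simp [hxy, hzw] at h1 h2 <;> simp [h1, h2]

/-- the standard drawing -/
noncomputable def udraw (n : ℕ) : Drawing (⊤ : SimpleGraph (Fin n)) where
  box := ubox n
  route e := uroute n e
  box_disjoint := by
    intro u v huv
    rw [Set.disjoint_left]
    intro x hx hy
    have h1 := hx 0
    have h2 := hy 0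
    simp [ubox] at h1 h2
    have : ((u : ℕ) : ℝ) = ((v : ℕ) : ℝ) := by linarith [h1.1, h1.2, h2.1, h2.2]
    exact huv (Fin.ext (by exact_mod_cast this))
  ends := by
    intro e
    refine ⟨(e : Sym2 (Fin n)).inf, (e : Sym2 (Fin n)).sup, ?_, ?_, ?_⟩
    · apply sym2_ext_inf_sup
      · rw [Sym2.inf_mk]
        have : (e : Sym2 (Fin n)).inf ≤ (e : Sym2 (Fin n)).sup := by
          have := inf_le_sup' (e : Sym2 (Fin n))
          exact_mod_cast this
        rw [inf_eq_left.2 this]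
      · rw [Sym2.sup_mk]
        have : (e : Sym2 (Fin n)).inf ≤ (e : Sym2 (Fin n)).sup := by
          have := inf_le_sup' (e : Sym2 (Fin n))
          exact_mod_cast this
        rw [sup_eq_right.2 this]
    · have hn : 1 ≤ n := Fin.pos (e : Sym2 (Fin n)).inf
      have h1 := lev_nonneg n e
      have h2 := lev_lt n hn e
      refine ⟨?_, 0, Or.inl (by simp [pt, uroute, ubox])⟩
      intro k
      fin_cases k
      · simp [pt, uroute, ubox]
      · simp [pt, uroute, ubox]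
      · simp only [pt, uroute, ubox]
        constructor
        · simpa using (by exact_mod_cast h1 : (0 : ℝ) ≤ (lev n e : ℝ))
        · have : lev n e ≤ (n : ℤ) - 1 := by omega
          have : (lev n e : ℝ) ≤ (((n : ℤ) - 1 : ℤ) : ℝ) := by exact_mod_cast this
          simpa using this
    · have hn : 1 ≤ n := Fin.pos (e : Sym2 (Fin n)).inf
      have h1 := lev_nonneg n e
      have h2 := lev_lt n hn e
      refine ⟨?_, 0, Or.inl (by simp [pt, uroute, ubox])⟩
      intro k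
      fin_cases k
      · simp [pt, uroute, ubox]
      · simp [pt, uroute, ubox]
      · simp only [pt, uroute, ubox]
        constructor
        · simpa using (by exact_mod_cast h1 : (0 : ℝ) ≤ (lev n e : ℝ))
        · have : lev n e ≤ (n : ℤ) - 1 := by omega
          have : (lev n e : ℝ) ≤ (((n : ℤ) - 1 : ℤ) : ℝ) := by exact_mod_cast this
          simpa using this
  avoid := by
    rintro e w x ⟨hx, hw⟩
    have h0 := hw 0
    have h1 := hw 1
    simp [ubox] at h0 h1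
    rcases mem_uroute hx with ⟨a0, a1, a2, a3⟩ | ⟨a0, a1, a2, a3⟩
    · left
      funext k
      fin_cases k
      · simp [pt, uroute, a0]
      · simp [pt, uroute]
        linarith [h0.1, h0.2, h1.1, h1.2]
      · simp [pt, uroute, a3]
    · right
      funext k
      fin_cases k
      · simp [pt, uroute]
        linarith [h0.1, h0.2, h1.1, h1.2]
      · simp [pt, uroute, a0]
      · simp [pt, uroute, a3]
  route_disjoint := by
    intro e f hef
    rw [Set.disjoint_left]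
    intro x hx hy
    apply hef
    apply Subtype.ext
    have hn : 1 ≤ n := Fin.pos (e : Sym2 (Fin n)).inf
    have key : ∀ e f : Sym2 (Fin n), ((f.inf : ℕ) : ℤ) ≤ ((e.inf : ℕ) : ℤ) →
        ((e.inf : ℕ) : ℤ) ≤ ((f.sup : ℕ) : ℤ) → ((f.sup : ℕ) : ℤ) ≤ ((e.sup : ℕ) : ℤ) →
        lev n e = lev n f → e = f := by
      intro e f h1 h2 h3 h4
      unfold lev at h4
      have he := e.sup.isLt
      have hd : (n : ℤ) ∣ ((e.inf : ℕ) + (e.sup : ℕ) : ℤ) - ((f.inf : ℕ) + (f.sup : ℕ) : ℤ) :=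
        (Int.emod_emod_of_dvd _ (dvd_refl _) ▸ Int.emod_eq_emod_iff_emod_sub_eq_zero.1 h4 |>
          Int.dvd_of_emod_eq_zero)
      obtain ⟨q, hq⟩ := hd
      have hq0 : q = 0 := by
        rcases lt_trichotomy q 0 with h | h | h
        · nlinarith
        · exact h
        · nlinarith
      subst hq0
      apply sym2_ext_inf_sup
      · apply Fin.ext; omega
      · apply Fin.ext; omega
    have hlev : ∀ z : ℝ, z = (lev n (e : Sym2 (Fin n)) : ℝ) → z = (lev n (f : Sym2 (Fin n)) : ℝ) →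
        lev n (e : Sym2 (Fin n)) = lev n (f : Sym2 (Fin n)) := by
      intro z h1 h2
      exact_mod_cast h1.symm.trans h2
    rcases mem_uroute hx with ⟨a0, a1, a2, a3⟩ | ⟨a0, a1, a2, a3⟩ <;>
      rcases mem_uroute hy with ⟨b0, b1, b2, b3⟩ | ⟨b0, b1, b2, b3⟩
    · have h4 := hlev _ a3 b3
      have hi : ((e : Sym2 (Fin n)).inf : ℕ) = ((f : Sym2 (Fin n)).inf : ℕ) := by
        exact_mod_cast a0.symm.trans b0
      rcases le_total ((f : Sym2 (Fin n)).sup : ℕ) ((e : Sym2 (Fin n)).sup : ℕ) with h | h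
      · refine key _ _ (by omega) ?_ (by exact_mod_cast h) h4
        rw [hi]; exact inf_le_sup' _
      · refine (key _ _ (by omega) ?_ (by exact_mod_cast h) h4.symm).symm
        rw [← hi]; exact inf_le_sup' _
    · have h4 := hlev _ a3 b3
      refine key _ _ ?_ ?_ ?_ h4
      · have : (((f : Sym2 (Fin n)).inf : ℕ) : ℝ) ≤ (((e : Sym2 (Fin n)).inf : ℕ) : ℝ) := by linarith
        exact_mod_cast this
      · have : (((e : Sym2 (Fin n)).inf : ℕ) : ℝ) ≤ (((f : Sym2 (Fin n)).sup : ℕ) : ℝ) := by linarith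
        exact_mod_cast this
      · have : (((f : Sym2 (Fin n)).sup : ℕ) : ℝ) ≤ (((e : Sym2 (Fin n)).sup : ℕ) : ℝ) := by linarith
        exact_mod_cast this
    · have h4 := hlev _ a3 b3
      refine (key _ _ ?_ ?_ ?_ h4.symm).symm
      · have : (((e : Sym2 (Fin n)).inf : ℕ) : ℝ) ≤ (((f : Sym2 (Fin n)).inf : ℕ) : ℝ) := by linarith
        exact_mod_cast this
      · have : (((f : Sym2 (Fin n)).inf : ℕ) : ℝ) ≤ (((e : Sym2 (Fin n)).sup : ℕ) : ℝ) := by linarith
        exact_mod_cast this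
      · have : (((e : Sym2 (Fin n)).sup : ℕ) : ℝ) ≤ (((f : Sym2 (Fin n)).sup : ℕ) : ℝ) := by linarith
        exact_mod_cast this
    · have h4 := hlev _ a3 b3
      have hs : ((e : Sym2 (Fin n)).sup : ℕ) = ((f : Sym2 (Fin n)).sup : ℕ) := by
        exact_mod_cast a0.symm.trans b0
      rcases le_total ((f : Sym2 (Fin n)).inf : ℕ) ((e : Sym2 (Fin n)).inf : ℕ) with h | h
      · refine key _ _ (by exact_mod_cast h) ?_ (by omega) h4
        rw [← hs]; exact inf_le_sup' _
      · refine (key _ _ (by exact_mod_cast h) ?_ (by omega) h4.symm).symm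
        rw [hs]; exact inf_le_sup' _

/-- the bounding box of the standard drawing -/
def bbox (n : ℕ) (hn : 1 ≤ n) : GBox where
  lo := fun _ => 0
  hi := fun _ => (n : ℤ) - 1
  le := by intro i; have : (1 : ℤ) ≤ n := by exact_mod_cast hn
           omega

theorem bbox_vol (n : ℕ) (hn : 1 ≤ n) : (bbox n hn).vol = n ^ 3 := by
  unfold GBox.vol bbox
  rw [Pi.card_Icc]
  simp

theorem udraw_in (n : ℕ) (hn : 1 ≤ n) : (udraw n).In (bbox n hn) := by
  constructor
  · intro v x hx k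
    have h0 := hx k
    have hv := v.isLt
    have hv' : ((v : ℕ) : ℝ) ≤ (n : ℝ) - 1 := by
      have : (v : ℕ) + 1 ≤ n := hv
      have : ((v : ℕ) : ℝ) + 1 ≤ n := by exact_mod_cast this
      linarith
    have hv0 : (0 : ℝ) ≤ ((v : ℕ) : ℝ) := by positivity
    fin_cases k <;> simp [udraw, ubox, bbox] at h0 ⊢ <;> constructor <;> linarith [h0.1, h0.2]
  · intro e x hx k
    have h1 := lev_nonneg n (e : Sym2 (Fin n))
    have h2 := lev_lt n hn (e : Sym2 (Fin n))
    have h1' : (0 : ℝ) ≤ (lev n (e : Sym2 (Fin n)) : ℝ) := by exact_mod_cast h1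
    have h2' : (lev n (e : Sym2 (Fin n)) : ℝ) ≤ (n : ℝ) - 1 := by
      have : lev n (e : Sym2 (Fin n)) + 1 ≤ n := h2
      have : (lev n (e : Sym2 (Fin n)) : ℝ) + 1 ≤ n := by exact_mod_cast this
      linarith
    have hs : (((e : Sym2 (Fin n)).sup : ℕ) : ℝ) ≤ (n : ℝ) - 1 := by
      have : ((e : Sym2 (Fin n)).sup : ℕ) + 1 ≤ n := (e : Sym2 (Fin n)).sup.isLt
      have : (((e : Sym2 (Fin n)).sup : ℕ) : ℝ) + 1 ≤ n := by exact_mod_cast this
      linarith
    have hi0 : (0 : ℝ) ≤ (((e : Sym2 (Fin n)).inf : ℕ) : ℝ) := by positivity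
    have hle : (((e : Sym2 (Fin n)).inf : ℕ) : ℝ) ≤ (((e : Sym2 (Fin n)).sup : ℕ) : ℝ) := by
      exact_mod_cast inf_le_sup' (e : Sym2 (Fin n))
    rcases mem_uroute hx with ⟨a0, a1, a2, a3⟩ | ⟨a0, a1, a2, a3⟩ <;>
      fin_cases k <;> simp [bbox] <;> constructor <;> linarith

theorem V1_le (n : ℕ) (hn : 1 ≤ n) : V1 n ≤ n ^ 3 :=
  Nat.sInf_le ⟨udraw n, bbox n hn, udraw_in n hn, bbox_vol n hn⟩

end Pool.Agent.Helper27.BoxDraw
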